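import Mathlib
import Pool.Agent.H542.NS.Unif
import Pool.Agent.H985.Cor.Base

/-!
# Local higher-order uniformity of `μ` and `λ` at EVERY square of `F_q[X]`, `q` even

Let `K` be a finite field with an even number `q` of elements. For every `k` and `ε > 0` there is `H₀` such
that for all `H ≥ H₀` and EVERY monic `A` of degree at least `H / 2` the supremum over all polynomial
phases `P` of degree less than `k` of `|E_{deg h < H} μ(A² + h) P(h)|` is at most `ε`, and the same holds for
`λ`. There is no average over the windows, as in the local higher-order uniformity conjecture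
(`MP_663568_nt.LocalUniformityEvenChar`, helper524: average over all `f` of degree `n`), the windows
are those at the squares, of any length `q ^ H → ∞`. (At all windows the statement is false for
slowly growing `H`: by full Chowla every sign pattern occurs.)

Proof. By the Gowers-Cauchy-Schwarz inequality (helper524) the supremum is bounded by the local Gowers
norm of order `k + 1`, an average of correlations of `2 ^ (k + 1)` points in the window, with shifts which
depend on the window; the correlations in every interval around every square are small uniformly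
in the shifts (project NS: helper542, 289, 618, 213, 44, 984; based on helper560, 524, 740, 969, 980,
985, 604).
-/

namespace Pool.Agent.Results.MP_663568_nt.EverySquareEvenChar

open Polynomial
open scoped ComplexConjugate

open Classical in
/-- The Möbius function of `K[X]`: `(-1) ^ k` if `F` is squarefree and is a nonzero constant times
a product of `k` monic irreducible polynomials, and `0` if `F` is not squarefree. -/
noncomputable def moebius {K : Type} [Field K] (F : K[X]) : ℤ :=
  if Squarefree F then (-1) ^ Multiset.card (UniqueFactorizationMonoid.factors F) else 0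

open Classical in
/-- The Liouville function of `K[X]`: `(-1) ^ k` if `F` is a nonzero constant times a product of `k`
monic irreducible polynomials, counted with multiplicity, and `0` for `F = 0`. -/
noncomputable def liouville {K : Type} [Field K] (F : K[X]) : ℤ :=
  if F = 0 then 0 else (-1) ^ Multiset.card (UniqueFactorizationMonoid.factors F)

/-- Polynomial phases of degree less than `k`: all multiplicative derivatives of order `k` are
equal to `1`. -/
def IsPhase {K : Type} [Field K] : ℕ → (K[X] → ℂ) → Prop
  | 0, P => ∀ h, P h = 1
  | k + 1, P => ∀ y, IsPhase k (fun h => P (h + y) * conj (P h))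

/-- **Local higher-order uniformity at every square of `F_q[X]`, `q` even.** -/
theorem result (K : Type) [Field K] [Fintype K] (hK : Even (Fintype.card K)) (k : ℕ) (ε : ℝ)
    (hε : 0 < ε) : ∃ H₀ : ℕ, ∀ H : ℕ, H₀ ≤ H → ∀ A : K[X], A.Monic → H ≤ 2 * A.natDegree →
      ∀ P : K[X] → ℂ, IsPhase k P →
        ‖∑ᶠ h ∈ {h : K[X] | h.degree < (H : WithBot ℕ)}, (moebius (A ^ 2 + h) : ℂ) * P h‖ ≤
            ε * (Fintype.card K : ℝ) ^ H ∧
        ‖∑ᶠ h ∈ {h : K[X] | h.degree < (H : WithBot ℕ)}, (liouville (A ^ 2 + h) : ℂ) * P h‖ ≤
            ε * (Fintype.card K : ℝ) ^ H := by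
  have := Pool.Agent.H985.Cor.charTwo_of_even hK
  have hph : ∀ (k : ℕ) (P : K[X] → ℂ), IsPhase k P → Pool.Agent.H542.NS.U0.IsPhase k P := by
    intro k
    induction k with
    | zero => exact fun P hP => hP
    | succ k ih => exact fun P hP y => ih _ (hP y)
  have hwin : ∀ (H : ℕ) (F : K[X] → ℂ), ∑ᶠ h ∈ {h : K[X] | h.degree < (H : WithBot ℕ)}, F h =
      ∑ h : degreeLT K H, F h := by
    intro H F
    have hS : {h : K[X] | h.degree < (H : WithBot ℕ)} = Set.range
        (fun u : degreeLT K H => (u : K[X])) := by
      ext h
      constructor
      · intro hh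
        exact ⟨⟨h, mem_degreeLT.2 hh⟩, rfl⟩
      · rintro ⟨u, rfl⟩
        exact mem_degreeLT.1 u.2
    rw [hS, finsum_mem_range Subtype.val_injective, finsum_eq_sum_of_fintype]
  obtain ⟨H₁, h₁⟩ := Pool.Agent.H542.NS.Unif.unifI (K := K) Pool.Agent.H542.NS.Unif.abs_mob_le
    Pool.Agent.H542.NS.Unif.corI_mob k hε
  obtain ⟨H₂, h₂⟩ := Pool.Agent.H542.NS.Unif.unifI (K := K) Pool.Agent.H542.NS.Unif.abs_lio_le
    Pool.Agent.H542.NS.Unif.corI_lio k hε
  refine ⟨max H₁ H₂, fun H hH A hA hd P hP => ?_⟩
  have h3 := h₁ H ((le_max_left _ _).trans hH) A hA hd P (hph k _ hP)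
  have h4 := h₂ H ((le_max_right _ _).trans hH) A hA hd P (hph k _ hP)
  simp only [hwin]
  constructor
  · refine le_trans (le_of_eq ?_) h3
    congr 1
  · refine le_trans (le_of_eq ?_) h4
    congr 1

end Pool.Agent.Results.MP_663568_nt.EverySquareEvenChar
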