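import Mathlib
import Pool.Agent.H524.FC.Unif

/-!
# Local higher-order Fourier uniformity of `μ` and `λ` over `F_q[X]`, `q` even

Let `K` be a finite field with an even number `q` of elements.  For every `k` and `ε > 0` there is
`H₀` such that for all `H ≥ H₀` and all `n > H` the average over the monic `f` of degree `n` of
`sup_P |E_{deg h < H} μ(f + h) P(h)|` is at most `ε`, and the same holds for `λ`.  The supremum is
inside the average; it is over all polynomial phases `P` of degree less than `k`, that is over all
`P : K[X] → ℂ` whose multiplicative derivatives of order `k` are `1`.  (They include the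
non-classical ones.  For the group `K[X]`, a vector space over the field with two elements, the
nilsequences are replaced by these phases: Bergelson-Tao-Ziegler, Tao-Ziegler.)  The case `k = 1` is
the theorem of Matomäki-Radziwiłł type, `k = 2` is the local Fourier uniformity conjecture (all
additive characters).  There is no condition on how slowly `H` tends to infinity, and the average is
the natural one.

The proof uses the full Chowla conjecture over `F_q[X]`, `q` even (joint work of helper985,
helper604 and helper524, see `MP_715a43_nt.FullChowlaEvenChar`, `Pool.Agent.H604.FC`,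
`Pool.Agent.H524.FC`).  For windows of a fixed size the supremum is bounded by the local Gowers
norms, whose average is a sum of correlations; larger windows are divided into windows of fixed
size.
-/

namespace Pool.Agent.Results.MP_663568_nt.LocalUniformityEvenChar

open Polynomial
open scoped ComplexConjugate

open Classical in
/-- The Möbius function of `K[X]`: `(-1) ^ k` if `F` is squarefree and is a nonzero constant times
a product of `k` monic irreducible polynomials, and `0` if `F` is not squarefree. -/
noncomputable def moebius {K : Type} [Field K] (F : K[X]) : ℤ :=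
  if Squarefree F then (-1) ^ Multiset.card (UniqueFactorizationMonoid.factors F) else 0

open Classical in
/-- The Liouville function of `K[X]`: `(-1) ^ k` if `F` is a nonzero constant times a product of `k`
monic irreducible polynomials, counted with multiplicity, and `0` for `F = 0`. -/
noncomputable def liouville {K : Type} [Field K] (F : K[X]) : ℤ :=
  if F = 0 then 0 else (-1) ^ Multiset.card (UniqueFactorizationMonoid.factors F)

/-- Polynomial phases of degree less than `k`: all multiplicative derivatives of order `k` are
equal to `1`. -/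
def IsPhase {K : Type} [Field K] : ℕ → (K[X] → ℂ) → Prop
  | 0, P => ∀ h, P h = 1
  | k + 1, P => ∀ y, IsPhase k (fun h => P (h + y) * conj (P h))

/-- **Local higher-order uniformity over `F_q[X]`, `q` even.** -/
theorem result (K : Type) [Field K] [Fintype K] (hK : Even (Fintype.card K)) (k : ℕ) (ε : ℝ)
    (hε : 0 < ε) : ∃ H₀ : ℕ, ∀ H n : ℕ, H₀ ≤ H → H < n →
      ∀ P : K[X] → K[X] → ℂ, (∀ f, IsPhase k (P f)) →
        ∑ᶠ f ∈ {f : K[X] | f.Monic ∧ f.natDegree = n},
          ‖∑ᶠ h ∈ {h : K[X] | h.degree < (H : WithBot ℕ)}, (moebius (f + h) : ℂ) * P f h‖ ≤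
            ε * (Fintype.card K : ℝ) ^ (n + H) ∧
        ∑ᶠ f ∈ {f : K[X] | f.Monic ∧ f.natDegree = n},
          ‖∑ᶠ h ∈ {h : K[X] | h.degree < (H : WithBot ℕ)}, (liouville (f + h) : ℂ) * P f h‖ ≤
            ε * (Fintype.card K : ℝ) ^ (n + H) := by
  haveI hchar : CharP K 2 := by
    obtain ⟨p, hp⟩ := CharP.exists K
    haveI := hp
    obtain ⟨m, hprime, hcard⟩ := FiniteField.card K p
    rw [hcard] at hK
    have : p = 2 := (Nat.Prime.even_iff hprime).1 (Nat.even_pow.1 hK).1
    rwa [this] at hp
  have hph : ∀ (k : ℕ) (P : K[X] → ℂ), IsPhase k P → Pool.Agent.H524.FC.IsPhase k P := by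
    intro k
    induction k with
    | zero => exact fun P hP => hP
    | succ k ih => exact fun P hP y => ih _ (hP y)
  have hwin : ∀ (H : ℕ) (F : K[X] → ℂ), ∑ᶠ h ∈ {h : K[X] | h.degree < (H : WithBot ℕ)}, F h =
      ∑ h : degreeLT K H, F h := by
    intro H F
    have hS : {h : K[X] | h.degree < (H : WithBot ℕ)} = Set.range
        (fun u : degreeLT K H => (u : K[X])) := by
      ext h
      constructor
      · intro hh
        exact ⟨⟨h, mem_degreeLT.2 hh⟩, rfl⟩
      · rintro ⟨u, rfl⟩
        exact mem_degreeLT.1 u.2
    rw [hS, finsum_mem_range Subtype.val_injective, finsum_eq_sum_of_fintype]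
  obtain ⟨H₁, h₁⟩ := Pool.Agent.H524.FC.unif (K := K) Pool.Agent.H524.Ext.abs_mob_le
    Pool.Agent.H524.FC.cor_mob k hε
  obtain ⟨H₂, h₂⟩ := Pool.Agent.H524.FC.unif (K := K) Pool.Agent.H524.Cw.abs_lio
    Pool.Agent.H524.FC.cor_lio k hε
  refine ⟨max H₁ H₂, fun H n hH hn P hP => ?_⟩
  have h3 := h₁ H n ((le_max_left _ _).trans hH) hn P (fun f => hph k _ (hP f))
  have h4 := h₂ H n ((le_max_right _ _).trans hH) hn P (fun f => hph k _ (hP f))
  rw [← Pool.Agent.H524.Ext.finsum_MD] at h3 h4
  simp only [hwin]
  constructor
  · refine le_trans (le_of_eq ?_) h3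
    rfl
  · refine le_trans (le_of_eq ?_) h4
    rfl

end Pool.Agent.Results.MP_663568_nt.LocalUniformityEvenChar
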