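import Mathlib
import Pool.Agent.H526.PE.FinalU
import Pool.Agent.H526.PE.Nsq

/-!
# Local higher order uniformity of `λ` at polynomial arguments over `F_q[X]`, `q` even

`K` is a finite field of characteristic two.  For the separable polynomials `f ∈ K[X][T]` of
`MP_648c71_nt.EvenCharAllDegrees`, also multiplied by inseparable factors `T² + c_i`, the function
`λ(F(a))` is locally uniform of every order: the averages over bounded windows do not correlate with
polynomial phases, which may depend on the window.  For an inseparable quadratic polynomial `T² + c`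
alone this fails: `λ(a² + c)` is a quadratic phase in every bounded window, although it does not
correlate with any polynomial phase globally.
-/

namespace Pool.Agent.Results.MP_663568_nt.PolynomialArguments

open Polynomial
open scoped ComplexConjugate

open Classical in
/-- The Liouville function of `K[X]`: `(-1) ^ k` if `F` is a nonzero constant times a product of `k`
monic irreducible polynomials, counted with multiplicity, and `0` for `F = 0`. -/
noncomputable def liouville {K : Type} [Field K] (F : K[X]) : ℤ :=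
  if F = 0 then 0 else (-1) ^ Multiset.card (UniqueFactorizationMonoid.factors F)

/-- For every root `θ` of `f` in an algebraic closure of `K(X)`, the product `μ θ` is the difference
of the square of an element separable over `K(X)` and an element of `K(X)`. -/
def SquareRoots {K : Type} [Field K] (f : K[X][X]) (μ : K[X]) : Prop :=
  ∀ θ : AlgebraicClosure (RatFunc K), aeval θ f = 0 →
    ∃ (s : RatFunc K) (σ : AlgebraicClosure (RatFunc K)), IsSeparable (RatFunc K) σ ∧
      σ ^ 2 = algebraMap K[X] (AlgebraicClosure (RatFunc K)) μ * θ +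
        algebraMap (RatFunc K) (AlgebraicClosure (RatFunc K)) s

/-- The polynomials `f`: nonconstant and separable over `K(X)`, with `SquareRoots f μ` for some
`μ ≠ 0`. -/
def Admissible {K : Type} [Field K] (f : K[X][X]) : Prop :=
  0 < f.natDegree ∧ (f.map (algebraMap K[X] (RatFunc K))).Separable ∧
    ∃ μ : K[X], μ ≠ 0 ∧ SquareRoots f μ

/-- Polynomial phases of degree less than `s` on the additive group of `K[X]`: the multiplicative
derivatives of order `s` are equal to `1`. -/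
def IsPhase {K : Type} [Field K] : ℕ → (K[X] → ℂ) → Prop
  | 0, P => ∀ u, P u = 1
  | s + 1, P => ∀ y, IsPhase s (fun u => P (u + y) * conj (P u))

/-- `λ(F(a))` as a complex number. -/
noncomputable def lam {K : Type} [Field K] (F : K[X][X]) (a : K[X]) : ℂ :=
  ((liouville (F.eval a) : ℤ) : ℂ)

/-- The sum over the monic `a` of degree `d` of the absolute values of the sums over the windows
`a + u`, `deg u < H`, of `λ(F(a + u)) P_a(u)`. -/
noncomputable def localSum {K : Type} [Field K] (F : K[X][X]) (P : K[X] → K[X] → ℂ) (H d : ℕ) : ℝ :=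
  ∑ᶠ a ∈ {a : K[X] | a.Monic ∧ a.natDegree = d},
    ‖∑ᶠ u ∈ {u : K[X] | u.degree < (H : WithBot ℕ)}, lam F (a + u) * P a u‖

section aux

variable {K : Type} [Field K]

theorem phase_iff (s : ℕ) (P : K[X] → ℂ) : IsPhase s P ↔ Pool.Agent.H526.PE.Ph s P := by
  induction s generalizing P with
  | zero => exact Iff.rfl
  | succ s ih =>
    constructor
    · intro h y
      exact (ih _).1 (h y)
    · intro h y
      exact (ih _).2 (h y)

theorem liouville_prod {ι : Type} (s : Finset ι) (F : ι → K[X]) :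
    liouville (∏ i ∈ s, F i) = ∏ i ∈ s, liouville (F i) := by
  classical
  induction s using Finset.induction_on with
  | empty =>
    rw [Finset.prod_empty, Finset.prod_empty]
    exact Pool.Agent.H524.Cw.lio_unit isUnit_one
  | insert a s ha ih =>
    rw [Finset.prod_insert ha, Finset.prod_insert ha, ← ih]
    exact Pool.Agent.H524.Cw.lio_mul _ _

theorem ph_mono {s t : ℕ} (h : s ≤ t) {P : K[X] → ℂ} (hP : Pool.Agent.H526.PE.Ph s P) :
    Pool.Agent.H526.PE.Ph t P := by
  induction h with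
  | refl => exact hP
  | step _ ih => exact Pool.Agent.H526.PE.Phl.main.2.2.1 _ _ _ ih

theorem lam_mul {n : ℕ} (f : K[X][X]) (c : Fin n → K[X]) (a : K[X]) :
    lam (f * ∏ i, (X ^ 2 + C (c i))) a =
      (((Pool.Agent.H526.PE.lio (f.eval a) : ℝ) *
        ∏ i, (Pool.Agent.H526.PE.lio (a ^ 2 + c i) : ℝ) : ℝ) : ℂ) := by
  have h2 : (f * ∏ i, (X ^ 2 + C (c i))).eval a = f.eval a * ∏ i, (a ^ 2 + c i) := by
    rw [eval_mul, eval_prod]
    simp only [eval_add, eval_pow, eval_X, eval_C]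
  have h3 : liouville (f.eval a * ∏ i, (a ^ 2 + c i)) =
      Pool.Agent.H526.PE.lio (f.eval a) * ∏ i, Pool.Agent.H526.PE.lio (a ^ 2 + c i) := by
    have := Pool.Agent.H524.Cw.lio_mul (f.eval a) (∏ i, (a ^ 2 + c i))
    have h4 := liouville_prod Finset.univ (fun i => a ^ 2 + c i)
    rw [show liouville (f.eval a * ∏ i, (a ^ 2 + c i)) =
      Pool.Agent.H524.Cw.lio (f.eval a * ∏ i, (a ^ 2 + c i)) from rfl, this]
    congr 1
  rw [lam, h2, h3]
  push_cast
  rfl

theorem lam_prod {n : ℕ} (c : Fin n → K[X]) (a : K[X]) :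
    lam (∏ i, (X ^ 2 + C (c i))) a =
      ((∏ i, (Pool.Agent.H526.PE.lio (a ^ 2 + c i) : ℝ) : ℝ) : ℂ) := by
  have h2 : (∏ i, (X ^ 2 + C (c i)) : K[X][X]).eval a = ∏ i, (a ^ 2 + c i) := by
    rw [eval_prod]
    simp only [eval_add, eval_pow, eval_X, eval_C]
  rw [lam, h2, liouville_prod Finset.univ (fun i => a ^ 2 + c i)]
  push_cast
  rfl

end aux

theorem result (K : Type) [Field K] [Fintype K] [CharP K 2] :
    -- (1) local uniformity of every order
    (∀ f : K[X][X], Admissible f → ∀ (n : ℕ) (c : Fin n → K[X]), (∀ i, ¬ IsSquare (c i)) →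
      ∀ (s : ℕ) (ε : ℝ), 0 < ε → ∃ H₀ : ℕ, ∀ H d : ℕ, H₀ ≤ H → H < d → ∀ P : K[X] → K[X] → ℂ,
        (∀ a, IsPhase s (P a)) →
        localSum (f * ∏ i, (X ^ 2 + C (c i))) P H d ≤ ε * (Fintype.card K : ℝ) ^ (d + H)) ∧
    -- (2) `λ(a ^ 2 + c)` is a quadratic phase in all the windows of given length
    (∀ c : K[X], ¬ IsSquare c → ∃ B : K[X], B ≠ 0 ∧ ∀ H : ℕ, ∃ N : ℕ, ∀ a : K[X], a.Monic →
      N ≤ a.natDegree → ∃ P : K[X] → ℂ, IsPhase 3 P ∧
        ∀ u : K[X], u.degree < (H : WithBot ℕ) → lam (X ^ 2 + C c) (a + B * u) = P u) ∧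
    -- (3) but there is no global correlation with polynomial phases
    (∀ (n : ℕ) (c : Fin n → K[X]), (∀ i, ¬ IsSquare (c i)) →
      (∑ i, 1 / algebraMap K[X] (RatFunc K) (derivative (c i)) ≠ 0 ∨
        ∑ i, algebraMap K[X] (RatFunc K) (c i) /
          algebraMap K[X] (RatFunc K) (derivative (c i)) ^ 2 ≠ 0) →
      ∀ (s : ℕ) (ε : ℝ), 0 < ε → ∃ N : ℕ, ∀ d : ℕ, N ≤ d → ∀ P : K[X] → ℂ, IsPhase s P →
        ‖∑ᶠ a ∈ {a : K[X] | a.Monic ∧ a.natDegree = d},
          lam (∏ i, (X ^ 2 + C (c i))) a * P a‖ ≤ ε * (Fintype.card K : ℝ) ^ d) ∧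
    -- (4) `λ(a ^ 2 + X)` is constant for `a` of degree `d` at a distance at most `q ^ (d / 3)` of the
    -- squares
    (∀ d : ℕ, ∃ σ : ℂ, (σ = 1 ∨ σ = -1) ∧ ∀ g u : K[X], g.Monic → 2 * g.natDegree = d →
      3 * u.natDegree ≤ d → lam (X ^ 2 + C X) (g ^ 2 + u) = σ) := by
  have hset : ∀ d : ℕ, {a : K[X] | a.Monic ∧ a.natDegree = d} =
      ↑(Pool.Agent.H694.Typ.Mn K d) := by
    intro d
    ext a
    rw [Finset.mem_coe, Set.mem_ofPred_eq, Pool.Agent.H694.Typ.mem_Mn]
  refine ⟨?_, ?_, ?_, ?_⟩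
  · intro f hf n c hc s ε hε
    obtain ⟨hd, hs, μ, hμ, hr⟩ := hf
    obtain ⟨B, H, N, hB, h⟩ := Pool.Agent.H526.PE.s_lua K f μ n c s ε ⟨hd, hs, hμ, hr⟩ hc hε
    obtain ⟨H₀, h0⟩ := Pool.Agent.H526.PE.s_lub K _ s ε B H N hB h
    refine ⟨H₀, fun H' d hH hd' P hP => ?_⟩
    have h1 := h0 H' d hH hd' P fun a => (phase_iff s (P a)).1 (hP a)
    unfold localSum
    rw [hset, finsum_mem_coe_finset]
    have h2 : ∀ a : K[X], ‖∑ᶠ u ∈ {u : K[X] | u.degree < (H' : WithBot ℕ)},
        lam (f * ∏ i, (X ^ 2 + C (c i))) (a + u) * P a u‖ =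
        ‖∑ᶠ u ∈ {u : K[X] | u.degree < (H' : WithBot ℕ)},
          (((Pool.Agent.H526.PE.lio (f.eval (a + 1 * u)) : ℝ) *
            ∏ i, (Pool.Agent.H526.PE.lio ((a + 1 * u) ^ 2 + c i) : ℝ) : ℝ) : ℂ) * P a u‖ := by
      intro a
      congr 1
      refine finsum_congr fun u => finsum_congr fun _ => ?_
      rw [lam_mul, one_mul]
    rw [Finset.sum_congr rfl fun a _ => h2 a]
    exact h1
  · intro c hc
    obtain ⟨γ, b, e, hγ, hb, he⟩ := Pool.Agent.H604.LD.FINM.data hc
    refine ⟨b ^ 6, pow_ne_zero 6 hb.ne_zero, fun H => ?_⟩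
    obtain ⟨N, hN⟩ := Pool.Agent.H526.PE.s_locq K γ b e c 1 (b ^ 6) hγ hb he monic_one dvd_rfl
      (pow_ne_zero 6 hb.ne_zero) H
    refine ⟨N, fun a ha hNa => ?_⟩
    obtain ⟨σ, P, hσ, hP, h⟩ := hN a ha hNa
    have hlam : ∀ u : K[X], lam (X ^ 2 + C c) (a + b ^ 6 * u) =
        ((Pool.Agent.H526.PE.lio ((1 * (a + b ^ 6 * u)) ^ 2 + c) : ℝ) : ℂ) := by
      intro u
      rw [lam, one_mul]
      simp only [eval_add, eval_pow, eval_X, eval_C]
      push_cast
      rfl
    have hPn : ∀ u, ‖P u‖ = 1 := Pool.Agent.H526.PE.Phl.main.2.2.2.2.1 _ 3 P hP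
    have hσ1 : ‖σ‖ = 1 := by
      have h0 := h 0 (by rw [degree_zero]; exact WithBot.bot_lt_coe _)
      have hne : (1 * (a + b ^ 6 * 0)) ^ 2 + c ≠ 0 := by
        intro h1
        apply hc
        refine ⟨a, ?_⟩
        have h2 : c = -(1 * (a + b ^ 6 * 0)) ^ 2 := by linear_combination h1
        rw [h2]
        linear_combination (- a ^ 2) * (CharTwo.two_eq_zero : (2 : K[X]) = 0)
      have h3 : ‖((Pool.Agent.H526.PE.lio ((1 * (a + b ^ 6 * 0)) ^ 2 + c) : ℝ) : ℂ)‖ = 1 := by
        unfold Pool.Agent.H526.PE.lio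
        rw [if_neg hne]
        push_cast
        rw [norm_pow, norm_neg, norm_one, one_pow]
      rw [h0, norm_mul, hPn, mul_one] at h3
      exact h3
    refine ⟨fun u => σ * P u, (phase_iff 3 _).2 ?_, fun u hu => ?_⟩
    · exact Pool.Agent.H526.PE.Phl.main.1 _ 3 _ _
        (ph_mono (by norm_num : 1 ≤ 3) (Pool.Agent.H526.PE.Phl.main.2.2.2.2.2.1 K[X] σ hσ1)) hP
    · rw [hlam]
      exact h u hu
  · intro n c hc hk s ε hε
    obtain ⟨N, h⟩ := Pool.Agent.H526.PE.s_G3 K n c s ε hc hk hε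
    refine ⟨N, fun d hd P hP => ?_⟩
    have h1 := h d hd P ((phase_iff s P).1 hP) (fun _ => 1)
      ⟨fun _ => by rw [norm_one], fun _ _ _ _ _ => by rw [mul_one]⟩
    rw [hset, finsum_mem_coe_finset]
    have h2 : ∀ a : K[X], lam (∏ i, (X ^ 2 + C (c i))) a * P a =
        (1 : ℂ) * (P a * ((∏ i, (Pool.Agent.H526.PE.lio (a ^ 2 + c i) : ℝ) : ℝ) : ℂ)) := by
      intro a
      rw [lam_prod, one_mul, mul_comm]
    rw [Finset.sum_congr rfl fun a _ => h2 a]
    exact h1
  · intro d
    obtain ⟨σ, hσ, h⟩ := Pool.Agent.H526.PE.Nsq.main K d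
    refine ⟨(σ : ℂ), ?_, fun g u hg hgd hu => ?_⟩
    · rcases hσ with rfl | rfl
      · left
        norm_num
      · right
        norm_num
    · have h1 := h g u hg hgd hu
      have hsq : Squarefree ((g ^ 2 + u) ^ 2 + X) := by
        by_contra hc
        unfold Pool.Agent.H985.Chow.mob at h1
        rw [if_neg hc] at h1
        rcases hσ with h2 | h2 <;> rw [h2] at h1 <;> omega
      have h2 : (X ^ 2 + C X : K[X][X]).eval (g ^ 2 + u) = (g ^ 2 + u) ^ 2 + X := by
        simp only [eval_add, eval_pow, eval_X, eval_C]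
      have h3 : liouville ((g ^ 2 + u) ^ 2 + X) = σ := by
        rw [← h1]
        exact Pool.Agent.H524.Cw.lio_mob hsq
      rw [lam, h2, h3]

end Pool.Agent.Results.MP_663568_nt.PolynomialArguments
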